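import Pool.Agent.Y163.MW.Asm
import Pool.Agent.Y954.MW.B1

/-!
# Log l-adic cohomology: weights, monodromy and Künneth formula

`s` is a log point; the objects are the projective SNCL schemes `X` over `s`. The space `V` is the
direct sum of the graded pieces `gr m w = gr^P_w H^m(X)` of the weight filtrations `P` of the
Kummer log etale cohomology groups `H^m(X)` (coefficients `ℚ_l` or an extension `K` of it, Tate
twists are suppressed), `N` is the operator induced by the monodromy operator.
-/

set_option autoImplicit false

open Module TensorProduct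

universe u v w

namespace Pool.Agent.Y163.LG

open Pool.Agent.Y143 Pool.Agent.Y163.MW

/-- The data given by the log cohomology of a projective SNCL scheme `X`: the space
`V = ⨁ gr^P_w H^m(X)`, its parts `gr m w = gr^P_w H^m(X)`, and the operator `N`. -/
structure LCoh (K : Type w) [Field K] where
  /-- the graded cohomology -/
  V : Type v
  [addCommGroup : AddCommGroup V]
  [module : Module K V]
  /-- the part of degree `m` and weight `w` -/
  gr : ℤ → ℤ → Submodule K V
  /-- the monodromy operator -/
  N : Module.End K V

attribute [instance] LCoh.addCommGroup LCoh.module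

section

variable {K : Type w} [Field K] {V V' V'' : Type v} [AddCommGroup V] [Module K V]
  [AddCommGroup V'] [Module K V'] [AddCommGroup V''] [Module K V'']

/-- Poincaré duality in dimension `d`: the form `B` is nondegenerate, and it pairs
`gr m w` with `gr (2 d - m) (2 d - w)`. -/
structure IsPoincare (d : ℕ) (gr : ℤ → ℤ → Submodule K V) (B : V →ₗ[K] V →ₗ[K] K) : Prop where
  nondeg : ∀ x, (∀ y, val B x y = 0) → x = 0
  orth : ∀ m w m' w' x y, x ∈ gr m w → y ∈ gr m' w' →
    ¬ (m + m' = 2 * (d : ℤ) ∧ w + w' = 2 * (d : ℤ)) → val B x y = 0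

/-- The Künneth formula: the isomorphism `κ` respects degrees and weights and
`N'' (x ⊗ y) = N x ⊗ y + x ⊗ N' y`. -/
structure IsLKunneth (gr : ℤ → ℤ → Submodule K V) (gr' : ℤ → ℤ → Submodule K V')
    (gr'' : ℤ → ℤ → Submodule K V'') (N : Module.End K V) (N' : Module.End K V')
    (N'' : Module.End K V'') (κ : V ⊗[K] V' ≃ₗ[K] V'') : Prop where
  degree : ∀ m w n t x y, x ∈ gr m w → y ∈ gr' n t → tm κ x y ∈ gr'' (m + n) (w + t)
  monodromy : KLeibniz κ N N' N''

end

namespace LCoh

variable {K : Type w} [Field K] (R : LCoh.{v, w} K)

/-- `H^m`, the sum of its graded pieces. -/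
def deg (m : ℤ) : Submodule K R.V := ⨆ c : ℤ, R.gr m (m + c)

/-- The part of excess `c` of the whole cohomology: the sum of the `gr m (m + c)`. -/
def tot (c : ℤ) : Submodule K R.V := ⨆ m : ℤ, R.gr m (m + c)

/-- The conjecture in degree `m`: for all `e ≥ 0` the map `N ^ e` from the part of weight `m + e` of
`H^m` to the part of weight `m - e` is bijective. -/
def KatoDeg (m : ℤ) : Prop :=
  ∀ e : ℕ, (∀ x ∈ R.gr m (m + e), (R.N ^ e) x = 0 → x = 0) ∧
    ∀ y ∈ R.gr m (m - e), ∃ x ∈ R.gr m (m + e), (R.N ^ e) x = y

/-- Kato's conjecture for `X`. -/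
def Kato : Prop := ∀ m, R.KatoDeg m

/-- The sum `2 ∑ k * rank (N ^ k)` for the powers of `N` on `H^m`. -/
noncomputable def rankMoment (m : ℤ) : ℤ := rankSum (R.deg m) R.N

/-- The sum of the `c ^ 2 * dim (gr m (m + c))`. -/
noncomputable def weightMoment (m : ℤ) : ℤ := squareSum (fun c => R.gr m (m + c))

/-- The sum `2 ∑ k * rank (N ^ k)` for the powers of `N` on the whole cohomology. -/
noncomputable def totRankMoment : ℤ := rankSum ⊤ R.N

/-- The sum of the squares of the excesses on the whole cohomology. -/
noncomputable def totWeightMoment : ℤ := squareSum R.tot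

/-- The dimension of the kernel of `N`. -/
noncomputable def inv : ℕ := finrank K (LinearMap.ker R.N)

/-- The predicted dimension of the kernel of `N`: the dimension of the parts of excess `0`
and `1`. -/
noncomputable def pred : ℕ := finrank K (R.tot 0) + finrank K (R.tot 1)

/-- The dimension of the part of the graded pieces `M_s / M_(s - 1)` of a filtration `M` which has
the expected excess `s`. -/
noncomputable def right (M : ℤ → Submodule K R.V) : ℤ := ∑ᶠ s : ℤ, overlap M R.tot s

/-- The known properties (`d` is the dimension of `X`): the cohomology is finite dimensional, `N`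
preserves the degree and lowers the weight by `2`, Poincaré duality. -/
structure IsLCoh (d : ℕ) : Prop where
  finite : Module.Finite K R.V
  isInternal : DirectSum.IsInternal (fun p : ℤ × ℤ => R.gr p.1 p.2)
  N_gr : ∀ m w x, x ∈ R.gr m w → R.N x ∈ R.gr m (w - 2)
  dual : ∃ B, IsPoincare d R.gr B

end LCoh

/-- The data of a class of log schemes with products and dimensions, and of their cohomology. -/
structure LTheory (K : Type w) [Field K] where
  /-- the log schemes -/
  Obj : Type u
  /-- the product -/
  prod : Obj → Obj → Obj
  /-- the dimension -/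
  dim : Obj → ℕ
  /-- the cohomology -/
  H : Obj → LCoh.{v, w} K

/-- The cohomology of the projective SNCL schemes over a log point has the known properties (the
product of `X` and `Y` is an SNCL log blow-up of the fibre product, it has the same cohomology). -/
structure LTheory.IsLog {K : Type w} [Field K] (T : LTheory.{u, v, w} K) : Prop where
  coh : ∀ X, (T.H X).IsLCoh (T.dim X)
  kunneth : ∀ X Y, ∃ κ, IsLKunneth (T.H X).gr (T.H Y).gr (T.H (T.prod X Y)).gr (T.H X).N (T.H Y).N
    (T.H (T.prod X Y)).N κ

/-- The powers `X^(n + 1)`. -/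
def LTheory.pow {K : Type w} [Field K] (T : LTheory.{u, v, w} K) (X : T.Obj) : ℕ → T.Obj
  | 0 => X
  | n + 1 => T.prod X (T.pow X n)

end Pool.Agent.Y163.LG
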