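import Pool.Agent.Y163.LG.Defs

/-!
# The index law for log l-adic cohomology
-/

set_option autoImplicit false

open Module TensorProduct Filter Topology

universe u v w

namespace Pool.Agent.Y163.LG

open Pool.Agent.Y143 Pool.Agent.Y163.MW

namespace LCoh

variable {K : Type w} [Field K] {R R' R'' : LCoh.{v, w} K} {d : ℕ}

lemma gr_le_tot (m c : ℤ) : R.gr m (m + c) ≤ R.tot c := le_iSup (fun m => R.gr m (m + c)) m

lemma gr_le_tot' (m t : ℤ) : R.gr m t ≤ R.tot (t - m) := by
  have h := R.gr_le_tot m (t - m)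
  rwa [show m + (t - m) = t by ring] at h

lemma gr_le_deg (m c : ℤ) : R.gr m (m + c) ≤ R.deg m := le_iSup (fun c => R.gr m (m + c)) c

lemma tot_eq (c : ℤ) : R.tot c = ⨆ (p : ℤ × ℤ) (_ : p.2 - p.1 = c), R.gr p.1 p.2 := by
  apply le_antisymm
  · exact iSup_le fun m => le_iSup₂_of_le (m, m + c) (by simp) le_rfl
  · refine iSup₂_le fun p hp => ?_
    rw [← hp]
    exact gr_le_tot' _ _

lemma deg_eq (m : ℤ) : R.deg m = ⨆ (p : ℤ × ℤ) (_ : p.1 = m), R.gr p.1 p.2 := by
  apply le_antisymm
  · exact iSup_le fun c => le_iSup₂_of_le (m, m + c) (by simp) le_rfl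
  · refine iSup₂_le fun p hp => ?_
    subst hp
    have h := R.gr_le_deg p.1 (p.2 - p.1)
    rwa [show p.1 + (p.2 - p.1) = p.2 by ring] at h

lemma indep (hR : R.IsLCoh d) : iSupIndep (fun p : ℤ × ℤ => R.gr p.1 p.2) :=
  hR.isInternal.submodule_iSupIndep

lemma indep_tot (hR : R.IsLCoh d) : iSupIndep R.tot := by
  have h := iSupIndep_fib (indep hR) (fun p : ℤ × ℤ => p.2 - p.1)
  have e : R.tot = fun c => ⨆ (p : ℤ × ℤ) (_ : p.2 - p.1 = c), R.gr p.1 p.2 := funext tot_eq
  rw [e]
  exact h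

lemma indep_deg (hR : R.IsLCoh d) : iSupIndep R.deg := by
  have h := iSupIndep_fib (indep hR) (fun p : ℤ × ℤ => p.1)
  have e : R.deg = fun c => ⨆ (p : ℤ × ℤ) (_ : p.1 = c), R.gr p.1 p.2 := funext deg_eq
  rw [e]
  exact h

lemma indep_exc (hR : R.IsLCoh d) (m : ℤ) : iSupIndep (fun c => R.gr m (m + c)) := by
  have h := (indep hR).comp (f := fun c : ℤ => (m, m + c)) (fun c c' h => by
    have := congrArg Prod.snd h
    simpa using this)
  exact h

lemma iSup_tot (hR : R.IsLCoh d) : ⨆ c, R.tot c = ⊤ := by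
  have e : R.tot = fun c => ⨆ (p : ℤ × ℤ) (_ : p.2 - p.1 = c), R.gr p.1 p.2 := funext tot_eq
  rw [e, iSup_fib (fun p : ℤ × ℤ => R.gr p.1 p.2) (fun p : ℤ × ℤ => p.2 - p.1)]
  exact hR.isInternal.submodule_iSup_eq_top

lemma isInternal_tot (hR : R.IsLCoh d) : DirectSum.IsInternal R.tot :=
  DirectSum.isInternal_submodule_of_iSupIndep_of_iSup_eq_top (indep_tot hR) (iSup_tot hR)

lemma N_exc (hR : R.IsLCoh d) (m c : ℤ) : ∀ x ∈ R.gr m (m + c), R.N x ∈ R.gr m (m + (c - 2)) := by
  intro x hx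
  have := hR.N_gr m _ x hx
  rwa [show m + c - 2 = m + (c - 2) by ring] at this

lemma N_tot (hR : R.IsLCoh d) (c : ℤ) : ∀ x ∈ R.tot c, R.N x ∈ R.tot (c - 2) := by
  intro x hx
  have h : R.tot c ≤ (R.tot (c - 2)).comap R.N :=
    iSup_le fun m y hy => gr_le_tot m _ (N_exc hR m c y hy)
  exact h hx

lemma N_deg (hR : R.IsLCoh d) (m : ℤ) : ∀ x ∈ R.deg m, R.N x ∈ R.deg m := by
  intro x hx
  have h : R.deg m ≤ (R.deg m).comap R.N :=
    iSup_le fun c y hy => gr_le_deg m _ (N_exc hR m c y hy)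
  exact h hx

lemma katoDeg_iff (m : ℤ) : R.KatoDeg m ↔ Centred (fun c => R.gr m (m + c)) R.N := by
  simp only [KatoDeg, Centred, sub_eq_add_neg]

/-- The second moment inequality for `H^m`. -/
theorem moment_deg (hR : R.IsLCoh d) (m : ℤ) :
    R.rankMoment m ≤ R.weightMoment m ∧ (R.rankMoment m = R.weightMoment m ↔ R.KatoDeg m) := by
  have := hR.finite
  have hi := internal_comap (S := R.deg m) (indep_exc hR m) rfl
  have h := moment (V := R.deg m) (N := R.N.restrict (N_deg hR m)) hi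
    (fun c x hx => N_exc hR m c x hx)
  rw [centred_comap (N_deg hR m) (gr_le_deg m), ← katoDeg_iff m] at h
  have e1 : R.rankMoment m =
      ∑ᶠ k : ℕ, 2 * (k : ℤ) * finrank K (LinearMap.range ((R.N.restrict (N_deg hR m)) ^ k)) := by
    refine finsum_congr fun k => ?_
    rw [finrank_range_restrict]
  have e2 : R.weightMoment m =
      ∑ᶠ c : ℤ, c ^ 2 * (finrank K ((R.gr m (m + c)).comap (R.deg m).subtype) : ℤ) := by
    refine finsum_congr fun c => ?_
    rw [finrank_comap (gr_le_deg m c)]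
  rw [e1, e2]
  exact h

/-- The total weight decomposition is centred if and only if Kato's conjecture holds. -/
theorem centred_tot_iff (hR : R.IsLCoh d) : Centred R.tot R.N ↔ R.Kato := by
  classical
  have hind := indep_deg hR
  rw [iSupIndep_iff_finsetSum_eq_zero_imp_eq_zero] at hind
  have hNk : ∀ (k : ℕ) (m c : ℤ), ∀ x ∈ R.gr m (m + c), (R.N ^ k) x ∈ R.gr m (m + (c - 2 * k)) := by
    intro k m
    induction k with
    | zero => intro c x hx; simpa using hx
    | succ k ih =>
      intro c x hx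
      rw [pow_succ', Module.End.mul_apply]
      have := N_exc hR m _ _ (ih c x hx)
      rwa [show c - 2 * (k : ℤ) - 2 = c - 2 * ((k + 1 : ℕ) : ℤ) by push_cast; ring] at this
  have hdec : ∀ (c : ℤ) (x : R.V), x ∈ R.tot c → ∃ (f : ℤ →₀ R.V),
      (∀ m, f m ∈ R.gr m (m + c)) ∧ ∀ s : Finset ℤ, f.support ⊆ s → ∑ m ∈ s, f m = x := by
    intro c x hx
    obtain ⟨f, hf, hfx⟩ := (Submodule.mem_iSup_iff_exists_finsupp _ _).1 hx
    refine ⟨f, hf, fun s hs => ?_⟩
    rw [← hfx, Finsupp.sum]
    symm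
    refine Finset.sum_subset hs fun i _ hi => ?_
    exact Finsupp.notMem_support_iff.1 hi
  constructor
  · intro h m
    rw [katoDeg_iff]
    intro a
    refine ⟨fun x hx h0 => (h a).1 x (gr_le_tot m _ hx) h0, fun y hy => ?_⟩
    obtain ⟨x, hx, hxy⟩ := (h a).2 y (gr_le_tot m _ hy)
    obtain ⟨f, hf, hfx⟩ := hdec _ x hx
    refine ⟨f m, hf m, ?_⟩
    have h1 : ∑ i ∈ insert m f.support, ((R.N ^ a) (f i) - if i = m then y else 0) = 0 := by
      rw [Finset.sum_sub_distrib, Finset.sum_ite_eq' (insert m f.support) m (fun _ => y),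
        if_pos (Finset.mem_insert_self m _), ← map_sum, hfx _ (Finset.subset_insert _ _), hxy,
        sub_self]
    have h2 := hind (insert m f.support) _ ?_ h1 m (Finset.mem_insert_self m _)
    · rw [if_pos rfl, sub_eq_zero] at h2
      exact h2
    · intro i _
      refine Submodule.sub_mem _ (gr_le_deg i _ (hNk a i _ _ (hf i))) ?_
      split_ifs with hi
      · rw [hi]
        exact gr_le_deg m _ hy
      · exact Submodule.zero_mem _
  · intro h a
    have h' := fun m => (katoDeg_iff m).1 (h m) a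
    refine ⟨fun x hx h0 => ?_, fun y hy => ?_⟩
    · obtain ⟨f, hf, hfx⟩ := hdec _ x hx
      rw [← hfx f.support (Finset.Subset.refl _), map_sum] at h0
      rw [← hfx f.support (Finset.Subset.refl _)]
      refine Finset.sum_eq_zero fun i hi => ?_
      exact (h' i).1 _ (hf i)
        (hind f.support _ (fun i _ => gr_le_deg i _ (hNk a i _ _ (hf i))) h0 i hi)
    · obtain ⟨f, hf, hfx⟩ := hdec _ y hy
      choose g hg hg' using fun i => (h' i).2 (f i) (hf i)
      refine ⟨∑ i ∈ f.support, g i, Submodule.sum_mem _ fun i _ => gr_le_tot i _ (hg i), ?_⟩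
      rw [map_sum, ← hfx f.support (Finset.Subset.refl _)]
      exact Finset.sum_congr rfl fun i _ => hg' i

/-- Symmetry of the weights on the whole cohomology (Poincaré duality). -/
lemma finrank_tot_neg (hR : R.IsLCoh d) (c : ℤ) :
    finrank K (R.tot c) = finrank K (R.tot (-c)) := by
  have := hR.finite
  have key : ∀ c : ℤ, finrank K (R.tot c) ≤ finrank K (R.tot (-c)) := by
    intro c
    obtain ⟨B, hB⟩ := hR.dual
    have hB0 : ∀ x, (∀ y, B x y = 0) → x = 0 := hB.nondeg
    have hB1 : ∀ m t m' t' x y, x ∈ R.gr m t → y ∈ R.gr m' t' →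
      ¬ (m + m' = 2 * (d : ℤ) ∧ t + t' = 2 * (d : ℤ)) → B x y = 0 := hB.orth
    let φ : R.tot c →ₗ[K] Module.Dual K (R.tot (-c)) :=
      { toFun := fun x => (B x).comp (R.tot (-c)).subtype
        map_add' := fun x y => by ext z; simp
        map_smul' := fun a x => by ext z; simp }
    have hφ : Function.Injective φ := by
      rw [← LinearMap.ker_eq_bot, LinearMap.ker_eq_bot']
      intro x hx
      apply Subtype.ext
      apply hB0
      have h1 : ∀ m' c', ∀ y ∈ R.gr m' (m' + c'), B x y = 0 := by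
        intro m' c' y hy
        by_cases hc : c' = -c
        · subst hc
          exact DFunLike.congr_fun hx ⟨y, gr_le_tot m' _ hy⟩
        · have h2 : R.tot c ≤ LinearMap.ker (B.flip y) := by
            refine iSup_le fun m z hz => ?_
            rw [LinearMap.mem_ker, LinearMap.flip_apply]
            exact hB1 _ _ _ _ z y hz hy (by rintro ⟨h3, h4⟩; omega)
          exact LinearMap.mem_ker.1 (h2 x.2)
      intro y
      have h8 : (⊤ : Submodule K R.V) ≤ LinearMap.ker (B x) := by
        rw [← iSup_tot hR]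
        exact iSup_le fun c' => iSup_le fun m' y hy => LinearMap.mem_ker.2 (h1 m' c' y hy)
      exact LinearMap.mem_ker.1 (h8 (Submodule.mem_top))
    have := LinearMap.finrank_le_finrank_of_injective hφ
    rwa [Subspace.dual_finrank_eq] at this
  apply le_antisymm (key c)
  have := key (-c)
  rwa [neg_neg] at this

/-- There is a basis of the cohomology which consists of weight vectors of weights `a i` for a
representation of `sl(2)` with lowering operator `N` and of excesses `c i`. -/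
def Adp (R : LCoh.{v, w} K) {I : Type} (a c : I → ℤ) : Prop :=
  ∃ (b : Basis I K R.V) (e h : Module.End K R.V), IsSl2 R.N b a e h ∧ ∀ i, b i ∈ R.tot (c i)

lemma Adp.reindex {I J : Type} {a c : I → ℤ} (H : R.Adp a c) (E : I ≃ J) (a' c' : J → ℤ)
    (ha : ∀ j, a' j = a (E.symm j)) (hc : ∀ j, c' j = c (E.symm j)) : R.Adp a' c' := by
  obtain ⟨b, e, h, hs, hb⟩ := H
  refine ⟨b.reindex E, e, h, ⟨fun j => ?_, hs.eN, hs.hN, hs.he⟩, fun j => ?_⟩
  · rw [Basis.reindex_apply, ha]
    exact hs.wt _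
  · rw [Basis.reindex_apply, hc]
    exact hb _

/-- The Künneth isomorphism respects the excesses. -/
lemma kunneth_tot {κ : R.V ⊗[K] R'.V ≃ₗ[K] R''.V}
    (hκ : IsLKunneth R.gr R'.gr R''.gr R.N R'.N R''.N κ)
    {c c' : ℤ} {x : R.V} {y : R'.V} (hx : x ∈ R.tot c) (hy : y ∈ R'.tot c') :
    κ (x ⊗ₜ y) ∈ R''.tot (c + c') := by
  have h2 : R.tot c ≤ (R''.tot (c + c')).comap
      (κ.toLinearMap ∘ₗ (TensorProduct.mk K R.V R'.V).flip y) := by
    refine iSup_le fun m z hz => ?_
    have h3 : R'.tot c' ≤ (R''.tot (c + c')).comap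
        (κ.toLinearMap ∘ₗ (TensorProduct.mk K R.V R'.V) z) := by
      refine iSup_le fun n t ht => ?_
      have h4 := hκ.degree m (m + c) n (n + c') z t hz ht
      rw [show m + c + (n + c') = m + n + (c + c') by ring] at h4
      exact gr_le_tot _ _ h4
    exact h3 hy
  exact h2 hx

lemma Adp.prod {I J : Type} {a c : I → ℤ} {a' c' : J → ℤ} (H : R.Adp a c) (H' : R'.Adp a' c')
    {κ : R.V ⊗[K] R'.V ≃ₗ[K] R''.V} (hκ : IsLKunneth R.gr R'.gr R''.gr R.N R'.N R''.N κ) :
    R''.Adp (fun p : I × J => a p.1 + a' p.2) (fun p : I × J => c p.1 + c' p.2) := by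
  obtain ⟨b, e, h, hs, hb⟩ := H
  obtain ⟨b', e', h', hs', hb'⟩ := H'
  have h1 := Pool.Agent.Y210.MW.t_B3 K R.V R'.V R.N I b a e h R'.N J b' a' e' h' hs hs'
  have h2 := h1.map κ (N' := R''.N) (fun x => by
    induction x using TensorProduct.induction_on with
    | zero => simp
    | tmul x y =>
      refine (hκ.monodromy x y).trans ?_
      exact (map_add κ _ _).symm
    | add x y hx hy => rw [map_add, map_add, map_add, map_add, hx, hy])
  refine ⟨_, _, _, h2, fun p => ?_⟩
  rw [Basis.map_apply, Basis.tensorProduct_apply]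
  exact kunneth_tot hκ (hb p.1) (hb' p.2)

section adp

variable [CharZero K] {I : Type} [Fintype I] {a c : I → ℤ}

lemma Adp.inv_eq (hB1 : StB1.{w, v}) (H : R.Adp a c) :
    R.inv = Nat.card {i // a i = 0 ∨ a i = 1} := by
  obtain ⟨b, e, h, hs, -⟩ := H
  exact hB1 K R.V R.N I b a e h hs

omit [CharZero K] in
lemma Adp.finrank_eq (H : R.Adp a c) : finrank K R.V = Fintype.card I := by
  obtain ⟨b, -⟩ := H
  exact finrank_eq_card_basis b

omit [CharZero K] in
lemma Adp.finrank_tot (hR : R.IsLCoh d) (H : R.Adp a c) (r : ℤ) :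
    finrank K (R.tot r) = Nat.card {i // c i = r} := by
  obtain ⟨b, e, h, -, hb⟩ := H
  exact finrank_gr (indep_tot hR) b c hb r

omit [CharZero K] in
lemma Adp.pred_eq (hR : R.IsLCoh d) (H : R.Adp a c) :
    R.pred = Nat.card {i // c i = 0 ∨ c i = 1} := by
  classical
  rw [pred, H.finrank_tot hR, H.finrank_tot hR, Nat.card_eq_fintype_card,
    Nat.card_eq_fintype_card, Nat.card_eq_fintype_card, Fintype.card_subtype,
    Fintype.card_subtype, Fintype.card_subtype, Finset.filter_or, Finset.card_union_of_disjoint]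
  rw [Finset.disjoint_filter]
  intro i _ h0 h1
  omega

lemma Adp.right_eq (hR : R.IsLCoh d) (H : R.Adp a c) {M : ℤ → Submodule K R.V}
    (hM : IsMonodromyFiltrationOn ⊤ R.N M) : R.right M = Nat.card {i // c i - a i = 0} := by
  classical
  obtain ⟨b, e, h, hs, hb⟩ := H
  have h1 := Pool.Agent.Y68.MW.stD Pool.Agent.Y141.MW.stL K R.V R.N I b a e h hs M hM
  have h2 : ∀ r s, finrank K (M r ⊓ R.tot s : Submodule K R.V) =
      Nat.card {i // a i ≤ r ∧ c i = s} := by
    intro r s
    rw [h1 r, gr_eq_span (indep_tot hR) b c hb s, span_image_inf, finrank_span_image]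
    rfl
  have h3 : ∀ s, (Nat.card {i // a i ≤ s ∧ c i = s} : ℤ) - Nat.card {i // a i ≤ s - 1 ∧ c i = s} =
      1 * (Nat.card {g : {i // c i - a i = 0} // c g.1 = s} : ℤ) := by
    intro s
    have h4 : Nat.card {i // a i ≤ s ∧ c i = s} = Nat.card {i // a i ≤ s - 1 ∧ c i = s} +
        Nat.card {g : {i // c i - a i = 0} // c g.1 = s} := by
      have e1 : Nat.card {g : {i // c i - a i = 0} // c g.1 = s} =
          Nat.card {i // c i - a i = 0 ∧ c i = s} :=
        Nat.card_congr (Equiv.subtypeSubtypeEquivSubtypeInter (fun i => c i - a i = 0)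
          (fun i => c i = s))
      rw [e1, Nat.card_eq_fintype_card, Nat.card_eq_fintype_card, Nat.card_eq_fintype_card,
        Fintype.card_subtype, Fintype.card_subtype, Fintype.card_subtype,
        ← Finset.card_union_of_disjoint]
      · congr 1
        ext i
        simp only [Finset.mem_filter, Finset.mem_univ, true_and, Finset.mem_union]
        omega
      · rw [Finset.disjoint_filter]
        intro i _ h5 h6
        omega
    rw [h4]
    push_cast
    ring
  unfold right overlap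
  rw [finsum_congr (fun s => by rw [h2, h2, h3 s]),
    finsum_card (fun g : {i // c i - a i = 0} => c g.1) (fun _ => 1), Finset.sum_const,
    Nat.card_eq_fintype_card]
  simp

end adp

/-- The adapted basis given by strings. -/
lemma adp_strings [CharZero K] (S : Strings R.tot R.N) : R.Adp S.ct S.wt := by
  obtain ⟨e, h, hs⟩ := Pool.Agent.Y664.MW.t_B2 K R.V R.tot R.N S
  exact ⟨S.b, e, h, hs, S.mem'⟩

lemma exists_strings (hR : R.IsLCoh d) : Nonempty (Strings R.tot R.N) := by
  have := hR.finite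
  exact Pool.Agent.Y153.MW.stA K R.V R.tot R.N (isInternal_tot hR) (N_tot hR)

lemma kato_iff (hR : R.IsLCoh d) (S : Strings R.tot R.N) :
    R.Kato ↔ ∀ s, S.top s = S.len s := by
  rw [← centred_tot_iff hR]
  exact Pool.Agent.Y614.MW.stF K R.V R.tot R.N (isInternal_tot hR) S

lemma rankSum_top : R.totRankMoment =
    ∑ᶠ k : ℕ, 2 * (k : ℤ) * finrank K (LinearMap.range (R.N ^ k)) := by
  unfold totRankMoment rankSum
  refine finsum_congr fun k => ?_
  rw [Submodule.map_top]

/-- The second moment inequality for the whole cohomology. -/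
theorem moment_tot (hR : R.IsLCoh d) :
    R.totRankMoment ≤ R.totWeightMoment ∧ (R.totRankMoment = R.totWeightMoment ↔ R.Kato) := by
  have := hR.finite
  have h := moment (isInternal_tot hR) (N_tot hR)
  rw [centred_tot_iff hR, ← rankSum_top] at h
  exact h

/-- The kernel of `N` has at least the predicted dimension. -/
theorem pred_le_inv [CharZero K] (hB1 : StB1.{w, v}) (hR : R.IsLCoh d) : R.pred ≤ R.inv := by
  obtain ⟨S⟩ := exists_strings hR
  rw [(adp_strings S).inv_eq hB1, (adp_strings S).pred_eq hR]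
  exact S.card_le

lemma totRank_eq (S : Strings R.tot R.N) : R.totRankMoment = ∑ p, S.ct p ^ 2 := by
  rw [rankSum_top]
  exact Pool.Agent.Y461.MW.h K R.V R.tot R.N S

/-- If `N` is not zero, there is a string of positive length. -/
lemma exists_len (S : Strings R.tot R.N) (hN : R.N ≠ 0) : ∃ s, 1 ≤ S.len s := by
  by_contra hcon
  push Not at hcon
  apply hN
  apply S.b.ext
  rintro ⟨s, i⟩
  have h0 : S.len s = 0 := by have := hcon s; omega
  have hi : i = Fin.last (S.len s) := by
    apply Fin.ext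
    have := i.2
    rw [Fin.val_last]
    omega
  rw [hi, S.last, LinearMap.zero_apply]

lemma totRank_pos (hR : R.IsLCoh d) (hN : R.N ≠ 0) : 0 < R.totRankMoment := by
  obtain ⟨S⟩ := exists_strings hR
  obtain ⟨s, hs⟩ := exists_len S hN
  rw [totRank_eq S]
  have h1 : S.ct ⟨s, ⟨0, by omega⟩⟩ = S.len s := by
    unfold Strings.ct
    simp
  have h2 : 0 < S.ct ⟨s, ⟨0, by omega⟩⟩ ^ 2 := by
    rw [h1]
    have : (0 : ℤ) < S.len s := by exact_mod_cast hs
    positivity
  exact lt_of_lt_of_le h2 (Finset.single_le_sum (f := fun p => S.ct p ^ 2)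
    (fun p _ => sq_nonneg _) (Finset.mem_univ _))

lemma totWeight_eq (hR : R.IsLCoh d) (S : Strings R.tot R.N) :
    R.totWeightMoment = ∑ p, S.wt p ^ 2 := S.weightMoment (indep_tot hR)

end LCoh

section

variable {K : Type w} [Field K] [CharZero K] {T : LTheory.{u, v, w} K}

open LCoh

omit [CharZero K] in
/-- Adapted bases for all the powers. -/
theorem adp_pow (hT : T.IsLog) (X : T.Obj) {I : Type} {a c : I → ℤ}
    (H : (T.H X).Adp a c) (n : ℕ) :
    (T.H (T.pow X n)).Adp (fun g : Fin (n + 1) → I => ∑ k, a (g k))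
      (fun g : Fin (n + 1) → I => ∑ k, c (g k)) := by
  induction n with
  | zero =>
    have H' : (T.H (T.pow X 0)).Adp a c := H
    refine H'.reindex (Equiv.funUnique (Fin 1) I).symm _ _ (fun g => ?_) (fun g => ?_)
    · simp
    · simp
  | succ n ih =>
    obtain ⟨κ, hκ⟩ := hT.kunneth X (T.pow X n)
    have H' : (T.H (T.pow X (n + 1))).Adp
        (fun p : I × (Fin (n + 1) → I) => a p.1 + ∑ k, a (p.2 k))
        (fun p : I × (Fin (n + 1) → I) => c p.1 + ∑ k, c (p.2 k)) := H.prod ih hκ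
    refine H'.reindex (Fin.consEquiv (fun _ => I)) _ _ (fun g => ?_) (fun g => ?_)
    · rw [Fin.sum_univ_succ]
      rfl
    · rw [Fin.sum_univ_succ]
      rfl

/-- The criterion on `X × X`. -/
theorem square_iff (hB1 : StB1.{w, v}) (hT : T.IsLog) (X : T.Obj) :
    (T.H (T.prod X X)).inv = (T.H (T.prod X X)).pred ↔ (T.H X).Kato := by
  obtain ⟨S⟩ := exists_strings (hT.coh X)
  obtain ⟨κ, hκ⟩ := hT.kunneth X X
  have H := (adp_strings S).prod (adp_strings S) hκ
  rw [kato_iff (hT.coh X) S, H.inv_eq hB1, H.pred_eq (hT.coh _)]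
  constructor
  · intro h s
    exact S.pairs h.symm s
  · intro h
    have h1 : S.ct = S.wt := by
      funext p
      unfold Strings.ct Strings.wt
      rw [h p.1]
    rw [h1]

/-- The index law. -/
theorem index_law (hB1 : StB1.{w, v}) (hT : T.IsLog) (X : T.Obj) (hN : (T.H X).N ≠ 0) :
    Tendsto (fun n : ℕ => ((T.H (T.pow X n)).inv : ℝ) / ((T.H (T.pow X n)).pred : ℝ)) atTop
      (𝓝 (√(((T.H X).totWeightMoment : ℝ) / ((T.H X).totRankMoment : ℝ)))) := by
  obtain ⟨S⟩ := exists_strings (hT.coh X)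
  have H := adp_strings S
  rw [totRank_eq S, totWeight_eq (hT.coh X) S]
  obtain ⟨s, hs⟩ := exists_len S hN
  have ha2 : ∃ p p', S.ct p = S.ct p' + 2 := by
    refine ⟨⟨s, ⟨0, by omega⟩⟩, ⟨s, ⟨1, by omega⟩⟩, ?_⟩
    unfold Strings.ct
    simp
  have hc2 : ∃ p p', S.wt p = S.wt p' + 2 := by
    refine ⟨⟨s, ⟨0, by omega⟩⟩, ⟨s, ⟨1, by omega⟩⟩, ?_⟩
    unfold Strings.wt
    simp
  have ha : ∀ r : ℤ, Nat.card {p // S.ct p = r} = Nat.card {p // S.ct p = -r} := by
    intro r
    let E : S.P ≃ S.P := Equiv.sigmaCongrRight fun s => Fin.revPerm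
    refine Nat.card_congr (E.subtypeEquiv ?_)
    rintro ⟨s, i⟩
    have hE : S.ct (E ⟨s, i⟩) = -S.ct ⟨s, i⟩ := by
      show (S.len s : ℤ) - 2 * ((Fin.rev i : Fin (S.len s + 1)) : ℕ) =
        -((S.len s : ℤ) - 2 * (i : ℕ))
      rw [Fin.val_rev]
      have := i.2
      omega
    rw [hE]
    omega
  have hc : ∀ r : ℤ, Nat.card {p // S.wt p = r} = Nat.card {p // S.wt p = -r} := by
    intro r
    rw [← H.finrank_tot (hT.coh X), ← H.finrank_tot (hT.coh X)]
    exact finrank_tot_neg (hT.coh X) r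
  refine (lim_ratio S.ct S.wt ha hc ha2 hc2).congr fun n => ?_
  have Hn := adp_pow hT X H n
  rw [Hn.inv_eq hB1, Hn.pred_eq (hT.coh _)]

/-- The zero-one law. -/
theorem zero_one (hT : T.IsLog) (X : T.Obj)
    (M : ∀ n, ℤ → Submodule K (T.H (T.pow X n)).V)
    (hM : ∀ n, IsMonodromyFiltrationOn ⊤ (T.H (T.pow X n)).N (M n)) :
    ((T.H X).Kato → ∀ n, (T.H (T.pow X n)).right (M n) = finrank K (T.H (T.pow X n)).V) ∧
    (¬ (T.H X).Kato → Tendsto (fun n : ℕ =>
      ((T.H (T.pow X n)).right (M n) : ℝ) / (finrank K (T.H (T.pow X n)).V : ℝ)) atTop (𝓝 0)) := by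
  classical
  obtain ⟨S⟩ := exists_strings (hT.coh X)
  have H := adp_strings S
  rw [kato_iff (hT.coh X) S]
  have hd : ∀ n (g : Fin (n + 1) → S.P), ∑ k, S.wt (g k) - ∑ k, S.ct (g k) =
      ∑ k, (S.wt (g k) - S.ct (g k)) := fun n g => (Finset.sum_sub_distrib _ _).symm
  have hcard : ∀ n, (T.H (T.pow X n)).right (M n) =
      Nat.card {g : Fin (n + 1) → S.P // ∑ k, (S.wt (g k) - S.ct (g k)) = 0} := by
    intro n
    rw [(adp_pow hT X H n).right_eq (hT.coh _) (hM n)]
    simp only [hd]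
  have hdim : ∀ n, finrank K (T.H (T.pow X n)).V = Fintype.card S.P ^ (n + 1) := by
    intro n
    rw [(adp_pow hT X H n).finrank_eq, Fintype.card_fun, Fintype.card_fin]
  constructor
  · intro h n
    have h1 : ∀ p, S.wt p - S.ct p = 0 := by
      intro p
      unfold Strings.wt Strings.ct
      rw [h p.1]
      ring
    rw [hcard, hdim]
    have h2 : Nat.card {g : Fin (n + 1) → S.P // ∑ k, (S.wt (g k) - S.ct (g k)) = 0} =
        Nat.card (Fin (n + 1) → S.P) :=
      Nat.card_congr (Equiv.subtypeUnivEquiv (fun g => Finset.sum_eq_zero fun k _ => h1 (g k)))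
    rw [h2, Nat.card_eq_fintype_card, Fintype.card_fun, Fintype.card_fin]
  · intro h
    push Not at h
    obtain ⟨s, hs⟩ := h
    have h1 : ∃ p, (fun p => S.wt p - S.ct p) p ≠ 0 := by
      refine ⟨⟨s, ⟨0, by omega⟩⟩, ?_⟩
      unfold Strings.wt Strings.ct
      simp only
      omega
    refine (Pool.Agent.Y246.MW.stE S.P (fun p => S.wt p - S.ct p) h1).congr fun n => ?_
    rw [hcard, hdim]
    push_cast
    rfl

end

end Pool.Agent.Y163.LG
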